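import Pool.Agent.Lib.MP_c55a01_nt.Alph.Main
import Pool.Agent.Lib.MP_c55a01_nt.Defs

open Pool.Agent.Lib.MP_c55a01_nt.Alph

/-- Classification of the coefficient sets `A` (in an Archimedean ordered ring such as the
integers, the rationals or the reals) for which the recurrence `r 0 = 0`, `r 1 = 1`,
`r n = a n * r (n-1) + r (n-2)` with `k`-automatic coefficients in `A` always has an automatic
sign sequence. -/
theorem Pool.Agent.Results.MP_c55a01_nt.Alphabets.result {R : Type} [Ring R] [LinearOrder R]
    [IsStrictOrderedRing R] [Archimedean R] (k : ℕ) (hk : 2 ≤ k) (A : Set R) :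
    List.TFAE [
      ∀ a : ℕ → R, (∀ n, a n ∈ A) → IsKAutomatic k a →
        IsKAutomatic k (fun n => SignType.sign (recSeq a n)),
      ∀ a : ℕ → R, (∀ n, a n ∈ A) → IsKAutomatic k a →
        IsAutomatic (fun n => SignType.sign (recSeq a n)),
      ∀ x ∈ A, ∀ y ∈ A, 0 < x → y < 0 → x * y ≤ -4 ∧ (0 : R) ∉ A] :=
  classification k hk A

/-- The negated form of Q1, in the integer definitions of the earlier hand-in and in every base,
as the case of the integers and `A = {1, -1}`. -/
theorem Pool.Agent.Results.MP_c55a01_nt.Alphabets.integer_case (k : ℕ) (hk : 2 ≤ k) :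
    ∃ a : ℕ → ℤ, (∀ n, a n = 1 ∨ a n = -1) ∧ Pool.Agent.Lib.MP_c55a01_nt.IsKAutomatic k a ∧
      ¬ Pool.Agent.Lib.MP_c55a01_nt.IsAutomatic
        (fun n => Int.sign (Pool.Agent.Lib.MP_c55a01_nt.recSeq a n)) := by
  have h := (Pool.Agent.Results.MP_c55a01_nt.Alphabets.result k hk ({1, -1} : Set ℤ)).out 1 2
  by_contra hcon
  push Not at hcon
  have h3 := h.1 (fun a haA ha => by
    obtain ⟨q, hq, hfin⟩ := hcon a haA ha
    have hrec : ∀ n, Pool.Agent.Lib.MP_c55a01_nt.recSeq a n = recSeq a n ∧
        Pool.Agent.Lib.MP_c55a01_nt.recSeq a (n + 1) = recSeq a (n + 1) := by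
      intro n
      induction n with
      | zero => exact ⟨rfl, rfl⟩
      | succ n ih =>
        refine ⟨ih.2, ?_⟩
        simp only [Pool.Agent.Lib.MP_c55a01_nt.recSeq, recSeq]
        rw [ih.1, ih.2]
    have h4 := IsKAutomatic.map (k := q) hfin (fun z : ℤ => SignType.sign z)
    refine ⟨q, hq, ?_⟩
    have e : (fun n => SignType.sign (recSeq a n)) = fun n =>
        SignType.sign (Int.sign (Pool.Agent.Lib.MP_c55a01_nt.recSeq a n)) := by
      funext n
      rw [(hrec n).1]
      rcases lt_trichotomy (recSeq a n) 0 with c | c | c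
      · rw [Int.sign_eq_neg_one_of_neg c, sign_neg c, sign_neg (by norm_num)]
      · simp [c]
      · rw [Int.sign_eq_one_of_pos c, sign_pos c, sign_pos (by norm_num)]
    rw [e]; exact h4)
  have := (h3 1 (by simp) (-1) (by simp) (by norm_num) (by norm_num)).1
  norm_num at this
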